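import Mathlib
import Pool.Agent.U37.MQ.Stm

/-!
# Package GLOB of project MQ: from the pairs (circle, point) to the whole plane
-/

set_option autoImplicit false

namespace Pool.Agent.U78.MQ

open Finset Equiv Pool.Agent.U37.MQ Pool.Agent.N606.ST Pool.Agent.U671.PG

open scoped Classical

/-- the numerical step -/
theorem num_step (n T : ℕ) (hn : 1000 ≤ n)
    (h : (n * (n ^ 2 + 1)) * ((2 * (n - 3) ^ 2) * ((n ^ 2 - n) * (n ^ 2 - 110000))) ≤
      110000 * (n + 1) * T) : n ^ 8 ≤ 70000 * T := by
  obtain ⟨m, rfl⟩ := Nat.exists_eq_add_of_le hn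
  have e1 : 1000 + m - 3 = m + 997 := by omega
  have e2 : (1000 + m) ^ 2 - (1000 + m) = (1000 + m) * (m + 999) := by
    have : (1000 + m) ^ 2 = (1000 + m) * (m + 999) + (1000 + m) := by ring
    omega
  have e3 : (1000 + m) ^ 2 - 110000 = m ^ 2 + 2000 * m + 890000 := by
    have : (1000 + m) ^ 2 = m ^ 2 + 2000 * m + 890000 + 110000 := by ring
    omega
  rw [e1, e2, e3] at h
  have key : 110000 * (1000 + m + 1) * (1000 + m) ^ 8 ≤
      70000 * (((1000 + m) * ((1000 + m) ^ 2 + 1)) * ((2 * (m + 997) ^ 2) *
        (((1000 + m) * (m + 999)) * (m ^ 2 + 2000 * m + 890000)))) := by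
    have a1 : 994 * (1000 + m) ^ 2 ≤ 1000 * (m + 997) ^ 2 := by nlinarith
    have a2 : 998 * (1000 + m + 1) ≤ 1000 * (m + 999) := by omega
    have a3 : 890 * (1000 + m) ^ 2 ≤ 1000 * (m ^ 2 + 2000 * m + 890000) := by nlinarith
    have a4 : (1000 + m) ^ 2 ≤ (1000 + m) ^ 2 + 1 := Nat.le_succ _
    have a := Nat.mul_le_mul (Nat.mul_le_mul a1 a2) (Nat.mul_le_mul a3 a4)
    have a' := Nat.mul_le_mul_left (140000 * (1000 + m) ^ 2) a
    -- 140000 * 994 * 998 * 890 = 1.236e14 ≥ 110000 * 10^9
    have b1 : 110000 * 1000000000 * ((1000 + m + 1) * (1000 + m) ^ 8) ≤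
        140000 * (994 * 998 * 890) * ((1000 + m + 1) * (1000 + m) ^ 8) :=
      Nat.mul_le_mul_right _ (by norm_num)
    have b2 : 140000 * (994 * 998 * 890) * ((1000 + m + 1) * (1000 + m) ^ 8) =
        140000 * (1000 + m) ^ 2 * (994 * (1000 + m) ^ 2 * (998 * (1000 + m + 1)) *
          (890 * (1000 + m) ^ 2 * (1000 + m) ^ 2)) := by ring
    have b3 : 140000 * (1000 + m) ^ 2 * (1000 * (m + 997) ^ 2 * (1000 * (m + 999)) *
          (1000 * (m ^ 2 + 2000 * m + 890000) * ((1000 + m) ^ 2 + 1))) =
        1000000000 * (70000 * (((1000 + m) * ((1000 + m) ^ 2 + 1)) * ((2 * (m + 997) ^ 2) *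
        (((1000 + m) * (m + 999)) * (m ^ 2 + 2000 * m + 890000))))) := by ring
    have b4 : 110000 * 1000000000 * ((1000 + m + 1) * (1000 + m) ^ 8) =
        1000000000 * (110000 * (1000 + m + 1) * (1000 + m) ^ 8) := by ring
    have c := b1.trans (b2.trans_le (a'.trans b3.le))
    rw [b4] at c
    exact Nat.le_of_mul_le_mul_left c (by norm_num)
  have h2 := key.trans (Nat.mul_le_mul_left 70000 h)
  have e5 : 110000 * (1000 + m + 1) * (1000 + m) ^ 8 =
      (110000 * (1000 + m + 1)) * (1000 + m) ^ 8 := rfl
  have e6 : 70000 * (110000 * (1000 + m + 1) * T) =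
      (110000 * (1000 + m + 1)) * (70000 * T) := by ring
  rw [e6] at h2
  exact Nat.le_of_mul_le_mul_left h2 (Nat.mul_pos (Nat.succ_pos _) (Nat.succ_pos _))

/-- package GLOB -/
theorem t_GLOB : S_INC → S_LOC → S_CNT → S_GLOB := by
  intro hINC hLOC hCNT V _ n B hn hpp hB
  have hI : Inc n B := hINC V n B (by omega) hB
  -- the count at a circle and a point
  have hcnt : ∀ k ∈ B, ∀ X, X ∉ k →
      n ^ 2 ≤ 110000 * ((B.filter fun g => X ∈ g ∧ (fails B g k).Nonempty).card + 1) :=
    fun k hk X hX => hCNT V n B (by omega) hpp hB k hk X hX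
  have hloc : ∀ g ∈ B, ∀ k ∈ B, (fails B g k).Nonempty →
      2 * (n - 3) ^ 2 ≤ (fails B g k).card :=
    fun g hg k hk hf => hLOC V n B (by omega) hI g hg k hk hf
  have hn2 : 1000000 ≤ n ^ 2 := by nlinarith
  refine ⟨?_, ?_⟩
  · intro k hk X hX
    have h1 := hcnt k hk X hX
    have h2 : (B.filter fun g => X ∈ g ∧ (fails B g k).Nonempty).card ≤
        (B.filter fun g => X ∈ g ∧ 2 * (n - 3) ^ 2 ≤ (fails B g k).card).card := by
      apply card_le_card
      intro g hg
      rw [mem_filter] at hg ⊢
      exact ⟨hg.1, hg.2.1, hloc g hg.1 k hk hg.2.2⟩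
    omega
  · apply num_step n _ hn
    -- for each circle `k`
    have hk : ∀ k ∈ B, (2 * (n - 3) ^ 2) * ((n ^ 2 - n) * (n ^ 2 - 110000)) ≤
        110000 * (n + 1) * ∑ g ∈ B, (fails B g k).card := by
      intro k hk
      -- points off `k`
      have hoff : (univ.filter fun X : V => X ∉ k).card = n ^ 2 - n := by
        have h1 : (univ.filter fun X : V => X ∉ k) = kᶜ := by
          ext X; simp
        rw [h1, card_compl, hI.cV, hI.cb k hk]
        omega
      have h1 : (n ^ 2 - n) * (n ^ 2 - 110000) ≤
          ∑ X ∈ univ.filter (fun X : V => X ∉ k),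
            110000 * (B.filter fun g => X ∈ g ∧ (fails B g k).Nonempty).card := by
        rw [← hoff, ← smul_eq_mul]
        apply card_nsmul_le_sum
        intro X hX
        have h2 := hcnt k hk X (mem_filter.mp hX).2
        omega
      have h3 : ∑ X ∈ univ.filter (fun X : V => X ∉ k),
            (B.filter fun g => X ∈ g ∧ (fails B g k).Nonempty).card ≤
          (n + 1) * (B.filter fun g => (fails B g k).Nonempty).card := by
        calc ∑ X ∈ univ.filter (fun X : V => X ∉ k),
            (B.filter fun g => X ∈ g ∧ (fails B g k).Nonempty).card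
            ≤ ∑ X : V, (B.filter fun g => X ∈ g ∧ (fails B g k).Nonempty).card :=
              sum_le_sum_of_subset (filter_subset _ _)
          _ = ∑ X : V, ((B.filter fun g => (fails B g k).Nonempty).filter
                fun g => X ∈ g).card := by
              refine sum_congr rfl fun X _ => ?_
              rw [filter_filter]
              congr 1
              ext g
              simp only [mem_filter]
              exact ⟨fun h => ⟨h.1, h.2.2, h.2.1⟩, fun h => ⟨h.1, h.2.2, h.2.1⟩⟩
          _ = ∑ g ∈ B.filter (fun g => (fails B g k).Nonempty),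
                ((univ : Finset V).filter fun X => X ∈ g).card :=
              sum_card_bipartiteAbove_eq_sum_card_bipartiteBelow
                (fun (X : V) (g : Finset V) => X ∈ g)
          _ = ∑ g ∈ B.filter (fun g => (fails B g k).Nonempty), (n + 1) := by
              refine sum_congr rfl fun g hg => ?_
              rw [mem_filter] at hg
              have h4 : ((univ : Finset V).filter fun X => X ∈ g) = g := by
                ext X; simp
              rw [h4, hI.cb g hg.1]
          _ = (n + 1) * (B.filter fun g => (fails B g k).Nonempty).card := by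
              rw [sum_const, smul_eq_mul, mul_comm]
      have h5 : (2 * (n - 3) ^ 2) * (B.filter fun g => (fails B g k).Nonempty).card ≤
          ∑ g ∈ B, (fails B g k).card := by
        calc (2 * (n - 3) ^ 2) * (B.filter fun g => (fails B g k).Nonempty).card
            = (B.filter fun g => (fails B g k).Nonempty).card • (2 * (n - 3) ^ 2) := by
              rw [smul_eq_mul, mul_comm]
          _ ≤ ∑ g ∈ B.filter (fun g => (fails B g k).Nonempty), (fails B g k).card := by
              apply card_nsmul_le_sum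
              intro g hg
              rw [mem_filter] at hg
              exact hloc g hg.1 k hk hg.2
          _ ≤ ∑ g ∈ B, (fails B g k).card := sum_le_sum_of_subset (filter_subset _ _)
      rw [← mul_sum] at h1
      calc (2 * (n - 3) ^ 2) * ((n ^ 2 - n) * (n ^ 2 - 110000))
          ≤ (2 * (n - 3) ^ 2) * (110000 * ((n + 1) *
              (B.filter fun g => (fails B g k).Nonempty).card)) :=
            Nat.mul_le_mul_left _ (h1.trans (Nat.mul_le_mul_left _ h3))
        _ = 110000 * (n + 1) * ((2 * (n - 3) ^ 2) *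
              (B.filter fun g => (fails B g k).Nonempty).card) := by ring
        _ ≤ _ := Nat.mul_le_mul_left _ h5
    calc (n * (n ^ 2 + 1)) * ((2 * (n - 3) ^ 2) * ((n ^ 2 - n) * (n ^ 2 - 110000)))
        = B.card • ((2 * (n - 3) ^ 2) * ((n ^ 2 - n) * (n ^ 2 - 110000))) := by
          rw [hI.cB, smul_eq_mul]
      _ ≤ ∑ k ∈ B, 110000 * (n + 1) * ∑ g ∈ B, (fails B g k).card :=
          card_nsmul_le_sum _ _ _ hk
      _ = 110000 * (n + 1) * ∑ g ∈ B, ∑ k ∈ B, (fails B g k).card := by
          rw [← mul_sum, sum_comm]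

end Pool.Agent.U78.MQ
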